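import Pool.Agent.H78.SI.Red2

/-!
# Popescu's conjecture up to roots of unity: reduction to class group type and Siegel type

`PopData k K` are the data of the question: `K/k` is a finite abelian extension of number fields, `D.S` the
set of the finite places in `S`, `D.w` the places `w_1, …, w_r`, `r = D.s + 1`, above different places of `S`
which split completely, and there is another place in `S`.  `D.value χ` is `L_S^*(0, χ)` for `χ ∈ Ĝ'` and
`0` otherwise, `InLambda D x` says that `x` is in the lattice `Λ` (with units `v^{w_K}`), and `(-1)^r x.reg χ`
is the `χ`-component of the regulator `R(x)`.

`PopQ1 D`: for some `m ≥ 1` the multiple `m η'` of the evaluator is in `Λ`.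

`PopRoots D`: `η' = c x` with `x ∈ Λ` and `c` in the group ring of `G` over the algebraic numbers, such that
`c^m` is in the rational group ring for some `m ≥ 1`.

**Theorem.** Let `M ≥ 1` and let `B` be a finite set of primes.  Assume `PopQ1` for

* the cyclic extensions `L/E` which are unramified at all finite places, such that `E` is totally complex,
  `M` divides `[E:ℚ]` and the places of `E` above the primes in `B` split completely in `L`, `S` = the
  archimedean places and one prime, `v_1, …, v_r` = all places of `S` which split completely in `L`;
* the cyclic extensions `L/E` of totally real fields `E` in which no archimedean place splits, `S` = the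
  archimedean and the ramified places and at most one other prime, `v_1, …, v_r` = all places of `S` which
  split completely in `L` (this case is due to Siegel).

Then `PopRoots D` holds for all data `D` over all number fields.
-/

set_option autoImplicit false

namespace Pool.Agent.Results.MP_1322f0_nt.RootsReduction

open Pool.Agent.H78.SI Pool.Agent.Q280.SI

/-- **The theorem.** -/
theorem result (M : ℕ) (hM : 0 < M) (B : Finset ℕ) (hC : ClassPop M B) (hS : SiegelPop)
    (k K : Type) [Field k] [NumberField k] [Field K] [NumberField K] [Algebra k K] [IsGalois k K]
    (D : PopData k K) : PopRoots D := roots_main hM hC hS D

end Pool.Agent.Results.MP_1322f0_nt.RootsReduction
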