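import Pool.Agent.H78.SI.Red1

/-!
# Multiples of the evaluators in Popescu's lattice: reduction to the unramified and the minimal case

`PopData k K` are the data of the question: `K/k` is a finite abelian extension of number fields, `D.S` the
set of the finite places in `S`, `D.w` the places `w_1, …, w_r`, `r = D.s + 1`, above different places of `S`
which split completely, and there is another place in `S`.  `PopQ1 D`: for some `m ≥ 1` the multiple `m η'`
of the evaluator is in `Λ`.

**Theorem.** Let `k` be a number field.  `PopQ1 D` holds for all data `D` over all finite extensions of `k` if
and only if it holds for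

* the cyclic extensions `L/E`, `E` a finite extension of `k`, which are unramified at all finite places,
  `S` = the archimedean places and one prime, `v_1, …, v_r` = all places of `S` which split completely in `L`;
* the cyclic extensions `L/E`, `E` a finite extension of `k`, in which no real place splits completely, `S` =
  the archimedean and the ramified places and at most one other prime, `v_1, …, v_r` = all places of `S`
  which split completely in `L`.

For the data over `k` the second case is only needed for `E = k`; for totally real fields `k` it is due to
Siegel.
-/

set_option autoImplicit false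

namespace Pool.Agent.Results.MP_1322f0_nt.UnramifiedReduction

open NumberField Pool.Agent.H78.SI Pool.Agent.Q280.SI

/-- Q1 up to a multiple for all data over `F` -/
def AllPop (F : Type) [Field F] [NumberField F] : Prop :=
  ∀ (K : Type) [Field K] [NumberField K] [Algebra F K] [IsGalois F K] (D : PopData F K), PopQ1 D

/-- **The theorem.** -/
theorem result (k : Type) [Field k] [NumberField k] :
    (UnramPop k → MinPop k → AllPop k) ∧
    ((∀ (E : Type) [Field E] [NumberField E] [Algebra k E], AllPop E) ↔
      UnramPop k ∧ ∀ (E : Type) [Field E] [NumberField E] [Algebra k E], MinPop E) := by
  refine ⟨fun hU hM K _ _ _ _ D => pop_main hU hM D, fun h => ⟨?_, ?_⟩, fun h E _ _ _ K _ _ _ _ D =>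
    pop_main ?_ (h.2 E) D⟩
  · intro E L _ _ _ _ _ _ _ D _ _ _ _
    exact h E L D
  · intro E _ _ _ L _ _ _ _ D _ _ _ _
    exact h E L D
  · intro E' L _ _ _ _ _ _ _ D h1 h2 h3 h4
    let A : Algebra k E' := ((algebraMap E E').comp (algebraMap k E)).toAlgebra
    exact h.1 E' L D h1 h2 h3 h4

end Pool.Agent.Results.MP_1322f0_nt.UnramifiedReduction
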